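import Pool.Agent.L0h99.MN.Stm2

/-!
Project MD, module RGV: a set of seven vertices, all of degree two with neighbours in the set, is a
circuit of length seven or splits into circuits of lengths four and three.
-/

set_option autoImplicit false

namespace Pool.Agent.L0h99.MD

open Finset Pool.Agent.L0h99.MN

variable {V : Type} [Fintype V] [DecidableEq V]

/-- a circuit of length `k + 3` inside `R` which is a component -/
def rgvCirc (H : SimpleGraph V) (R : Finset V) (k : ℕ) (x : Fin (k + 3) → V) : Prop :=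
  Function.Injective x ∧ (∀ i, x i ∈ R) ∧ ∀ i, N H (x i) = {x (i + 1), x (i - 1)}

/-- every element of `R` has two neighbours, both in `R` -/
def rgvReg (H : SimpleGraph V) (R : Finset V) : Prop :=
  ∀ x ∈ R, (N H x).card = 2 ∧ N H x ⊆ R

lemma rgv_card_image {H : SimpleGraph V} {R : Finset V} {k : ℕ} {x : Fin (k + 3) → V}
    (h : rgvCirc H R k x) : (univ.image x).card = k + 3 ∧ univ.image x ⊆ R := by
  refine ⟨?_, ?_⟩
  · rw [card_image_of_injective _ h.1]
    simp
  · intro v hv
    obtain ⟨i, -, rfl⟩ := mem_image.1 hv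
    exact h.2.1 i

lemma rgv_sdiff {H : SimpleGraph V} {R : Finset V} (hR : rgvReg H R) {k : ℕ}
    {x : Fin (k + 3) → V} (h : rgvCirc H R k x) : rgvReg H (R \ univ.image x) := by
  intro v hv
  rw [mem_sdiff] at hv
  refine ⟨(hR v hv.1).1, ?_⟩
  intro w hw
  rw [mem_sdiff]
  refine ⟨(hR v hv.1).2 hw, ?_⟩
  intro hw2
  obtain ⟨i, -, rfl⟩ := mem_image.1 hw2
  apply hv.2
  have h1 : v ∈ N H (x i) := mem_N.2 (mem_N.1 hw).symm
  rw [h.2.2 i] at h1
  simp only [mem_insert, mem_singleton] at h1
  rcases h1 with h1 | h1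
  · rw [h1]
    exact mem_image_of_mem _ (mem_univ _)
  · rw [h1]
    exact mem_image_of_mem _ (mem_univ _)

lemma rgv_tab {H : SimpleGraph V} {z : Fin 7 → V} (hz : Function.Injective z)
    (a b : Fin 7 → Fin 7) (hN : ∀ i, N H (z i) = {z (a i), z (b i)})
    (t : Fin 7 → Fin 7 → Bool) (ht : ∀ i, t i (a i) = true ∧ t i (b i) = true) :
    ∀ i j, H.Adj (z i) (z j) → t i j = true := by
  intro i j hij
  have h1 : z j ∈ N H (z i) := mem_N.2 hij
  rw [hN i] at h1
  simp only [mem_insert, mem_singleton] at h1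
  rcases h1 with h1 | h1
  · rw [hz h1]
    exact (ht i).1
  · rw [hz h1]
    exact (ht i).2

lemma rgv_join {H : SimpleGraph V} {R : Finset V} (hR7 : R.card = 7)
    {x : Fin 4 → V} {y : Fin 3 → V} (hx : rgvCirc H R 1 x) (hy : rgvCirc H R 0 y)
    (hd : Disjoint (univ.image x) (univ.image y)) :
    ∃ z : Fin 7 → V, Function.Injective z ∧ R = univ.image z ∧
    ((∀ i j, H.Adj (z i) (z j) → tA i j = true) ∨ (∀ i j, H.Adj (z i) (z j) → tB i j = true)) := by
  have hinj : Function.Injective (Fin.append x y) := by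
    rw [Fin.append_injective_iff]
    refine ⟨hx.1, hy.1, ?_⟩
    intro i j hij
    exact (Finset.disjoint_left.1 hd) (mem_image_of_mem x (mem_univ i))
      (by rw [hij]; exact mem_image_of_mem y (mem_univ j))
  let z : Fin 7 → V := Fin.append x y
  have hz : Function.Injective z := hinj
  have hsub : univ.image z ⊆ R := by
    intro v hv
    obtain ⟨i, -, rfl⟩ := mem_image.1 hv
    show Fin.append x y i ∈ R
    refine Fin.addCases (motive := fun i => Fin.append x y i ∈ R) (fun i => ?_) (fun i => ?_) i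
    · rw [Fin.append_left]
      exact hx.2.1 i
    · rw [Fin.append_right]
      exact hy.2.1 i
  refine ⟨z, hz, ?_, Or.inr ?_⟩
  · symm
    apply eq_of_subset_of_card_le hsub
    rw [card_image_of_injective _ hz, hR7]
    simp
  · apply rgv_tab hz ![1, 2, 3, 0, 5, 6, 4] ![3, 0, 1, 2, 6, 4, 5]
    · intro i
      fin_cases i
      · exact hx.2.2 0
      · exact hx.2.2 1
      · exact hx.2.2 2
      · exact hx.2.2 3
      · exact hy.2.2 0
      · exact hy.2.2 1
      · exact hy.2.2 2
    · decide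

theorem RGV : St_RGV := by
  intro hC V _ _ H R hR7 hR
  have hreg : rgvReg H R := hR
  have hne : R.Nonempty := card_pos.1 (by omega)
  obtain ⟨k, x, hx1, hx2, hx3⟩ := hC V H R hne hR
  have hx : rgvCirc H R k x := ⟨hx1, hx2, hx3⟩
  obtain ⟨hc, hs⟩ := rgv_card_image hx
  have hk : k + 3 ≤ 7 := by
    rw [← hc, ← hR7]
    exact card_le_card hs
  have hR'c : (R \ univ.image x).card = 4 - k := by
    rw [card_sdiff_of_subset hs, hc, hR7]
    omega
  have hreg' : rgvReg H (R \ univ.image x) := rgv_sdiff hreg hx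
  by_cases hk4 : k = 4
  · subst hk4
    refine ⟨x, hx1, ?_, Or.inl ?_⟩
    · symm
      apply eq_of_subset_of_card_le hs
      rw [hc, hR7]
    · apply rgv_tab hx1 (fun i => i + 1) (fun i => i - 1) hx3
      decide
  · have hne' : (R \ univ.image x).Nonempty := card_pos.1 (by omega)
    obtain ⟨l, y, hy1, hy2, hy3⟩ := hC V H _ hne' hreg'
    have hy : rgvCirc H (R \ univ.image x) l y := ⟨hy1, hy2, hy3⟩
    have hyR : rgvCirc H R l y := ⟨hy1, fun i => (mem_sdiff.1 (hy2 i)).1, hy3⟩
    obtain ⟨hcy, hsy⟩ := rgv_card_image hy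
    have hl : l + 3 ≤ 4 - k := by
      rw [← hcy, ← hR'c]
      exact card_le_card hsy
    have hdis : Disjoint (univ.image x) (univ.image y) := by
      rw [Finset.disjoint_left]
      intro v hv hv2
      exact (mem_sdiff.1 (hsy hv2)).2 hv
    have h01 : (k = 1 ∧ l = 0) ∨ (k = 0 ∧ l = 1) ∨ (k = 0 ∧ l = 0) := by omega
    rcases h01 with ⟨rfl, rfl⟩ | ⟨rfl, rfl⟩ | ⟨rfl, rfl⟩
    · exact rgv_join hR7 hx hyR hdis
    · exact rgv_join hR7 hyR hx hdis.symm
    · exfalso
      have hreg'' := rgv_sdiff hreg' hy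
      have hc'' : ((R \ univ.image x) \ univ.image y).card = 1 := by
        rw [card_sdiff_of_subset hsy, hcy, hR'c]
      obtain ⟨v, hv⟩ := card_pos.1 (show 0 < ((R \ univ.image x) \ univ.image y).card by omega)
      obtain ⟨e1, e2⟩ := hreg'' v hv
      have := card_le_card e2
      omega

end Pool.Agent.L0h99.MD
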